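import Pool.Agent.Helper32.KD2.St.A1
import Pool.Agent.Helper32.KD2.St.C1
import Pool.Agent.Helper32.KD2.St.C2
/-! KD2-C3: masses of the cells. -/
namespace KD.II.C3
open Finset MeasureTheory

theorem kw_le_one {d : ℕ} {s : ℝ} (hs : 0 < s) {w : Vd d} (hw : w ∈ ann d 1 2) :
    kw d s w ≤ 1 := by
  unfold kw
  apply Real.rpow_le_one_of_one_le_of_nonpos hw.1
  have : (0 : ℝ) ≤ d := Nat.cast_nonneg d
  linarith

theorem kw_ge {d : ℕ} {s : ℝ} (hs : 0 < s) {w : Vd d} (hw : w ∈ ann d 1 2) :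
    (2 : ℝ) ^ (-((d : ℝ) + 2 * s)) ≤ kw d s w := by
  unfold kw
  apply Real.rpow_le_rpow_of_nonpos (lt_of_lt_of_le one_pos hw.1) hw.2.le
  have : (0 : ℝ) ≤ d := Nat.cast_nonneg d
  linarith

theorem ann_sub {d : ℕ} : ann d 1 2 ⊆ Set.Icc (fun _ => -2) (fun _ => 2) := by
  intro w hw
  rw [Set.mem_Icc, Pi.le_def, Pi.le_def]
  have h1 : ∀ i, |w i| ≤ 2 := fun i => (norm_le_pi_norm w i).trans hw.2.le
  exact ⟨fun i => (abs_le.1 (h1 i)).1, fun i => (abs_le.1 (h1 i)).2⟩

theorem vol_Icc {d : ℕ} :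
    volume (Set.Icc (fun _ : Fin d => (-2 : ℝ)) (fun _ => 2)) = ENNReal.ofReal (4 ^ d) := by
  rw [Real.volume_Icc_pi]
  rw [Finset.prod_const, Finset.card_univ, Fintype.card_fin, ENNReal.ofReal_pow (by norm_num)]
  norm_num

theorem vol_sub {d : ℕ} {A : Set (Vd d)} (hA : A ⊆ ann d 1 2) :
    volume A ≤ ENNReal.ofReal (4 ^ d) := by
  rw [← vol_Icc]
  exact measure_mono (hA.trans ann_sub)

theorem vol_sub_ne {d : ℕ} {A : Set (Vd d)} (hA : A ⊆ ann d 1 2) : volume A ≠ ⊤ :=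
  ne_top_of_le_ne_top ENNReal.ofReal_ne_top (vol_sub hA)

theorem integrable_sub {d : ℕ} {s : ℝ} (hs : 0 < s) {A : Set (Vd d)} (hm : MeasurableSet A)
    (hA : A ⊆ ann d 1 2) : IntegrableOn (kw d s) A := by
  refine Measure.integrableOn_of_bounded (M := 1) (vol_sub_ne hA) kw_meas.aestronglyMeasurable ?_
  rw [ae_restrict_iff' hm]
  refine Filter.Eventually.of_forall fun w hw => ?_
  rw [Real.norm_of_nonneg (kw_nonneg w)]
  exact kw_le_one hs (hA hw)

theorem cel_integrable {d J : ℕ} (hd : 1 ≤ d) {s : ℝ} (hs : 0 < s) {l : Fin d → ℤ}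
    (hl : l ∈ ThF d J) : IntegrableOn (kw d s) (cel d J l) :=
  integrable_sub hs (cel_meas l) (cel_sub_ann hd hl)

/-- a box inside a cell -/
theorem exists_box (d j : ℕ) (l : Fin d → ℤ) : ∃ A : Set (Vd d), MeasurableSet A ∧
    volume.real A = 1 / 2 ^ (d * j) ∧ ∀ w ∈ A, trv ((2 : ℝ) ^ j • w) = l := by
  choose c hc using fun i => trz_fibre (l i)
  refine ⟨Set.pi Set.univ fun i => Set.Ioo (c i / 2 ^ j) ((c i + 1) / 2 ^ j), ?_, ?_, ?_⟩
  · exact MeasurableSet.univ_pi fun i => measurableSet_Ioo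
  · unfold Measure.real
    rw [Real.volume_pi_Ioo_toReal]
    · have : ∀ i : Fin d, (c i + 1) / 2 ^ j - c i / 2 ^ j = (1 / 2 ^ j : ℝ) := by
        intro i
        ring
      rw [Finset.prod_congr rfl fun i _ => this i, Finset.prod_const, Finset.card_univ,
        Fintype.card_fin, div_pow, one_pow, ← pow_mul, mul_comm]
    · intro i
      have : (0 : ℝ) < 2 ^ j := by positivity
      exact div_le_div_of_nonneg_right (by linarith) this.le
  · intro w hw
    funext i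
    have h1 := hw i (Set.mem_univ i)
    have h2 : (0 : ℝ) < 2 ^ j := by positivity
    show trz ((2 : ℝ) ^ j * w i) = l i
    apply hc i
    · have := (div_lt_iff₀ h2).1 h1.1
      linarith
    · have := (lt_div_iff₀ h2).1 h1.2
      linarith

theorem mass_pos {d J : ℕ} (hd : 1 ≤ d) {s : ℝ} (hs : 0 < s) {l : Fin d → ℤ}
    (hl : l ∈ ThF d J) : 0 < mass d s J l := by
  obtain ⟨A, hA, hv, hA'⟩ := exists_box d J l
  have hsub : A ⊆ cel d J l := fun w hw => hA' w hw
  have hsub' := hsub.trans (cel_sub_ann hd hl)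
  have h1 := setIntegral_ge_of_const_le_real (c := (2 : ℝ) ^ (-((d : ℝ) + 2 * s))) hA
    (vol_sub_ne hsub') (fun w hw => kw_ge hs (hsub' hw)) (integrable_sub hs hA hsub')
  have h2 : ∫ w in A, kw d s w ≤ mass d s J l := by
    unfold mass
    apply setIntegral_mono_set (cel_integrable hd hs hl)
    · exact Filter.Eventually.of_forall fun w => kw_nonneg w
    · exact Filter.Eventually.of_forall fun w hw => hsub hw
  rw [hv] at h1
  have h3 : (0 : ℝ) < (2 : ℝ) ^ (-((d : ℝ) + 2 * s)) * (1 / 2 ^ (d * J)) := by positivity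
  linarith

theorem mass_neg {d J : ℕ} {s : ℝ} (l : Fin d → ℤ) : mass d s J (-l) = mass d s J l := by
  unfold mass
  have h := (Measure.measurePreserving_neg (volume : Measure (Vd d))).setIntegral_preimage_emb
    (MeasurableEquiv.neg (Vd d)).measurableEmbedding (kw d s) (cel d J (-l))
  have h1 : (Neg.neg ⁻¹' cel d J (-l) : Set (Vd d)) = cel d J l := by
    ext w
    constructor
    · intro hw
      have := neg_mem_cel (l := -l) (w := -w) hw
      simpa using this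
    · intro hw
      exact neg_mem_cel hw
  rw [h1] at h
  rw [← h]
  simp only [kw_neg]

theorem cel_disjoint {d J : ℕ} {l l' : Fin d → ℤ} (h : l ≠ l') :
    Disjoint (cel d J l) (cel d J l') := by
  rw [Set.disjoint_left]
  intro w hw hw'
  exact h (hw.symm.trans hw')

theorem sum_eq {d J : ℕ} (hd : 1 ≤ d) {s : ℝ} (hs : 0 < s) (T : Finset (Fin d → ℤ))
    (hT : T ⊆ ThF d J) :
    ∑ l ∈ T, mass d s J l = ∫ w in ⋃ l ∈ T, cel d J l, kw d s w := by
  rw [integral_biUnion_finset]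
  · rfl
  · intro l _
    exact cel_meas l
  · intro l _ l' _ hne
    exact cel_disjoint hne
  · intro l hl
    exact cel_integrable hd hs (hT hl)

theorem union_sub {d J : ℕ} (hd : 1 ≤ d) (T : Finset (Fin d → ℤ))
    (hT : T ⊆ ThF d J) : (⋃ l ∈ T, cel d J l) ⊆ ann d 1 2 := by
  intro w hw
  simp only [Set.mem_iUnion] at hw
  obtain ⟨l, hl, hw⟩ := hw
  exact cel_sub_ann hd (hT hl) hw

theorem union_meas {d J : ℕ} (T : Finset (Fin d → ℤ)) :
    MeasurableSet (⋃ l ∈ T, cel d J l) :=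
  Finset.measurableSet_biUnion T fun l _ => cel_meas l

theorem mass_sum {d J : ℕ} (hd : 1 ≤ d) {s : ℝ} (hs : 0 < s) :
    ∑ l ∈ ThF d J, mass d s J l ≤ 4 ^ d := by
  rw [sum_eq hd hs _ (Finset.Subset.refl _)]
  have hsub := union_sub hd (ThF d J) (Finset.Subset.refl (ThF d J))
  have h1 := norm_setIntegral_le_of_norm_le_const (μ := volume) (f := kw d s) (C := 1)
    (lt_top_iff_ne_top.2 (vol_sub_ne hsub)) (fun w hw => by
      rw [Real.norm_of_nonneg (kw_nonneg w)]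
      exact kw_le_one hs (hsub hw))
  rw [one_mul] at h1
  refine (le_abs_self _).trans (h1.trans ?_)
  unfold Measure.real
  exact ENNReal.toReal_le_of_le_ofReal (by positivity) (vol_sub hsub)

theorem mass_cover {d J j : ℕ} (hd : 1 ≤ d) {s : ℝ} (hs : 0 < s) (hj : j ≤ J) (l : Fin d → ℤ)
    (hl : ∃ i, (2 : ℤ) ^ j ≤ |l i|) (hl' : ∀ i, |l i| < 2 ^ (j + 1)) :
    (2 : ℝ) ^ (-((d : ℝ) + 2 * s)) / 2 ^ (d * j) ≤
      ∑ θ ∈ ThF d J, if ijmp J j θ = l then mass d s J θ else 0 := by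
  classical
  have h0 : ∑ θ ∈ ThF d J, (if ijmp J j θ = l then mass d s J θ else 0) =
      ∑ θ ∈ (ThF d J).filter (fun θ => ijmp J j θ = l), mass d s J θ := by
    rw [Finset.sum_filter]
  have hT : (ThF d J).filter (fun θ => ijmp J j θ = l) ⊆ ThF d J := Finset.filter_subset _ _
  have h0' := sum_eq (s := s) hd hs _ hT
  have hconv : ∑ θ ∈ ThF d J, (if ijmp J j θ = l then mass d s J θ else 0) =
      ∫ w in ⋃ θ ∈ (ThF d J).filter (fun θ => ijmp J j θ = l), cel d J θ, kw d s w := by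
    rw [h0, h0']
  obtain ⟨A, hA, hv, hA'⟩ := exists_box d j l
  have hlF : l ∈ ThF d j := mem_ThF.2 ⟨hl, hl'⟩
  have hann : A ⊆ ann d 1 2 := by
    intro w hw
    rw [← trv_mem_iff (J := j) hd w, hA' w hw]
    exact hlF
  have hsub : A ⊆ ⋃ θ ∈ (ThF d J).filter (fun θ => ijmp J j θ = l), cel d J θ := by
    intro w hw
    simp only [Set.mem_iUnion]
    refine ⟨trv ((2 : ℝ) ^ J • w), ?_, rfl⟩
    rw [Finset.mem_filter]
    refine ⟨(trv_mem_iff hd w).2 (hann hw), ?_⟩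
    rw [← trv_scale (J := J) (j := j) (w := w) rfl hj]
    exact hA' w hw
  have h1 := setIntegral_ge_of_const_le_real (c := (2 : ℝ) ^ (-((d : ℝ) + 2 * s))) hA
    (vol_sub_ne hann) (fun w hw => kw_ge hs (hann hw)) (integrable_sub hs hA hann)
  have h2 : ∫ w in A, kw d s w ≤
      ∫ w in ⋃ θ ∈ (ThF d J).filter (fun θ => ijmp J j θ = l), cel d J θ, kw d s w := by
    apply setIntegral_mono_set (integrable_sub hs (union_meas _) (union_sub hd _ hT))
    · exact Filter.Eventually.of_forall fun w => kw_nonneg w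
    · exact Filter.Eventually.of_forall fun w hw => hsub hw
  rw [hv] at h1
  have h3 : (2 : ℝ) ^ (-((d : ℝ) + 2 * s)) / 2 ^ (d * j) =
      (2 : ℝ) ^ (-((d : ℝ) + 2 * s)) * (1 / 2 ^ (d * j)) := by ring
  rw [h3]
  refine h1.trans (h2.trans (le_of_eq ?_))
  rw [← hconv]

end KD.II.C3
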